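import Mathlib
import Pool.Agent.H43.Kneser
import Pool.Agent.H43.NoisySumFree

set_option autoImplicit false

/-!
The maximum size of a `C`-`(k,l)`-sum-free set in `ℤ/nℤ` for the interval noise
`C = {0, 1, ..., c-1}` equals `max 0 L`, for all `n ≥ 1`, `k > l ≥ 1`, `c ≥ 2`.
-/

namespace Pool.Agent.Results.MP_4e78b4_co.MuEqMaxL

open Finset Pool.Agent.H43.Kneser Pool.Agent.H43.NoisySumFree
open scoped Pointwise

/-- The interval noise `C = {0, 1, ..., c-1}`, read modulo `n`. -/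
def noise (n c : ℕ) : Finset (ZMod n) := (Finset.range c).image (fun i : ℕ => (i : ZMod n))

/-- The `m`-fold sumset `mA = A + A + ... + A` (`m` summands, pointwise sums of sets),
with `0A = {0}`. -/
def foldSum {n : ℕ} (A : Finset (ZMod n)) : ℕ → Finset (ZMod n)
  | 0 => {0}
  | m + 1 => foldSum A m + A

/-- The noisy sumset `m *_C A = mA + (m-1)C`, for the interval noise `C = {0, ..., c-1}`. -/
def noisySum (n c m : ℕ) (A : Finset (ZMod n)) : Finset (ZMod n) :=
  foldSum A m + foldSum (noise n c) (m - 1)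

/-- `A` is `C`-`(k,l)`-sum-free: `(k *_C A) ∩ (l *_C A) = ∅`. -/
def IsNoisySumFree (n c k l : ℕ) (A : Finset (ZMod n)) : Prop :=
  noisySum n c k A ∩ noisySum n c l A = ∅

/-- `χ = ⌊(n + 2(c-2))/(k+l)⌋ - (c-2)` (integer division by the positive number `k + l`
rounds down). -/
def chi (n c k l : ℕ) : ℤ :=
  ((n : ℤ) + 2 * ((c : ℤ) - 2)) / ((k : ℤ) + (l : ℤ)) - ((c : ℤ) - 2)

/-- `r`, the residue of `-kχ - (k-1)(c-2)` modulo `δ = gcd(n, k-l)`, in `{0, ..., δ-1}`. -/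
def res (n c k l : ℕ) : ℤ :=
  (-(k : ℤ) * chi n c k l - ((k : ℤ) - 1) * ((c : ℤ) - 2)) % ((Nat.gcd n (k - l) : ℕ) : ℤ)

/-- `L = ⌊(n + 2(c-2) - r)/(k+l)⌋ - (c-2)`. -/
def L (n c k l : ℕ) : ℤ :=
  ((n : ℤ) + 2 * ((c : ℤ) - 2) - res n c k l) / ((k : ℤ) + (l : ℤ)) - ((c : ℤ) - 2)

theorem noise_eq (n c : ℕ) [NeZero n] (hc : 1 ≤ c) : noise n c = J (1 : ZMod n) 0 (c - 1) := by
  unfold noise J
  have : c - 1 + 1 = c := by omega
  rw [this]
  apply Finset.image_congr
  intro i _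
  simp

theorem foldSum_eq {n : ℕ} (A : Finset (ZMod n)) (m : ℕ) : foldSum A m = m • A := by
  induction m with
  | zero => rw [zero_nsmul]; rfl
  | succ m ih => rw [succ_nsmul, ← ih]; rfl

theorem noisySum_eq (n c m : ℕ) [NeZero n] (hc : 1 ≤ c) (A : Finset (ZMod n)) :
    noisySum n c m A = X (1 : ZMod n) c m A := by
  unfold noisySum X
  rw [foldSum_eq, foldSum_eq, noise_eq n c hc, nsmul_J, nsmul_J]
  simp

/-- Arithmetic: a feasible gap bounds the size by `L`. -/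
theorem le_L {n c k l m E : ℕ} (hc : 2 ≤ c) (hl : 1 ≤ l) (hkl : l < k)
    (hd : Nat.gcd n (k - l) ∣ E)
    (h1 : l * m + (l - 1) * (c - 2) ≤ E) (h2 : E + k * m + (k - 1) * (c - 2) ≤ n) :
    (m : ℤ) ≤ L n c k l := by
  obtain ⟨t, rfl⟩ : ∃ t, c = t + 2 := ⟨c - 2, by omega⟩
  obtain ⟨l, rfl⟩ : ∃ l', l = l' + 1 := ⟨l - 1, by omega⟩
  obtain ⟨k, rfl⟩ : ∃ k', k = k' + 1 := ⟨k - 1, by omega⟩
  simp only [Nat.add_sub_cancel] at h1 h2
  have hdpos : 0 < Nat.gcd n (k + 1 - (l + 1)) := Nat.gcd_pos_of_pos_right _ (by omega)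
  have hdle : Nat.gcd n (k + 1 - (l + 1)) ≤ k + 1 - (l + 1) := Nat.gcd_le_right _ (by omega)
  have hdn : Nat.gcd n (k + 1 - (l + 1)) ∣ n := Nat.gcd_dvd_left _ _
  unfold L
  set r := res n (t + 2) (k + 1) (l + 1) with hr
  unfold res at hr
  set ch := chi n (t + 2) (k + 1) (l + 1) with hch
  unfold chi at hch
  set d : ℕ := Nat.gcd n (k + 1 - (l + 1)) with hdd
  have hdZ : (0 : ℤ) < (d : ℤ) := by exact_mod_cast hdpos
  have hdleZ : (d : ℤ) ≤ (k : ℤ) - l := by
    have : (d : ℤ) ≤ ((k + 1 - (l + 1) : ℕ) : ℤ) := by exact_mod_cast hdle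
    have h3 : ((k + 1 - (l + 1) : ℕ) : ℤ) = (k : ℤ) - l := by
      rw [Nat.cast_sub (by omega)]; push_cast; ring
    rwa [h3] at this
  have hr0 : 0 ≤ r := by rw [hr]; exact Int.emod_nonneg _ (ne_of_gt hdZ)
  have hrd : r < d := by rw [hr]; exact Int.emod_lt_of_pos _ hdZ
  push_cast at hch ⊢
  have e1 : ((t : ℤ) + 2 - 2) = t := by ring
  rw [e1] at hch ⊢
  have hs : (0 : ℤ) < (k : ℤ) + 1 + ((l : ℤ) + 1) := by positivity
  have h1Z : ((l : ℤ) + 1) * m + l * t ≤ E := by exact_mod_cast h1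
  have h2Z : (E : ℤ) + ((k : ℤ) + 1) * m + k * t ≤ n := by exact_mod_cast h2
  have hchle : (m : ℤ) ≤ ch := by
    rw [hch, le_sub_iff_add_le, Int.le_ediv_iff_mul_le hs]
    nlinarith
  have hchs : (ch + t) * ((k : ℤ) + 1 + ((l : ℤ) + 1)) ≤ n + 2 * t := by
    have := Int.ediv_mul_le ((n : ℤ) + 2 * t) (ne_of_gt hs)
    have h3 : ch + t = ((n : ℤ) + 2 * t) / ((k : ℤ) + 1 + ((l : ℤ) + 1)) := by
      rw [hch]; ring
    rwa [h3]
  rw [le_sub_iff_add_le, Int.le_ediv_iff_mul_le hs]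
  rcases lt_or_eq_of_le hchle with hlt | heq
  · have : (m : ℤ) + 1 ≤ ch := hlt
    nlinarith
  · -- `m = chi`
    obtain ⟨e, he⟩ := hd
    obtain ⟨f, hf⟩ := hdn
    have hW : r = ((n : ℤ) - ((k : ℤ) + 1) * m - k * t) % d := by
      have h3 : (n : ℤ) = d * f := by
        have : n = d * f := hf
        exact_mod_cast this
      rw [hr, ← heq]
      push_cast
      have h4 : (n : ℤ) - ((k : ℤ) + 1) * m - k * t =
          (-((k : ℤ) + 1) * m - ((k : ℤ) + 1 - 1) * ((t : ℤ) + 2 - 2)) + d * f := by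
        rw [h3]; ring
      rw [h4, Int.add_mul_emod_self_left]
    have heZ : (E : ℤ) = d * e := by exact_mod_cast he
    have h5 : (e : ℤ) ≤ ((n : ℤ) - ((k : ℤ) + 1) * m - k * t) / d := by
      rw [Int.le_ediv_iff_mul_le hdZ]
      have : (e : ℤ) * d = E := by rw [heZ]; ring
      linarith
    have h6 := Int.emod_add_mul_ediv ((n : ℤ) - ((k : ℤ) + 1) * m - k * t) d
    rw [← hW] at h6
    have h7 : (d : ℤ) * e ≤ d * (((n : ℤ) - ((k : ℤ) + 1) * m - k * t) / d) :=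
      mul_le_mul_of_nonneg_left h5 hdZ.le
    nlinarith

/-- Arithmetic: for `L ≥ 1` the gap exists. -/
theorem exists_gap {n c k l m : ℕ} (hc : 2 ≤ c) (hl : 1 ≤ l) (hkl : l < k)
    (hm : (m : ℤ) = L n c k l) (hm1 : 1 ≤ m) :
    ∃ E : ℕ, Nat.gcd n (k - l) ∣ E ∧ l * m + (l - 1) * (c - 2) ≤ E ∧
      E + k * m + (k - 1) * (c - 2) ≤ n := by
  obtain ⟨t, rfl⟩ : ∃ t, c = t + 2 := ⟨c - 2, by omega⟩
  obtain ⟨l, rfl⟩ : ∃ l', l = l' + 1 := ⟨l - 1, by omega⟩
  obtain ⟨k, rfl⟩ : ∃ k', k = k' + 1 := ⟨k - 1, by omega⟩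
  simp only [Nat.add_sub_cancel]
  have hdpos : 0 < Nat.gcd n (k + 1 - (l + 1)) := Nat.gcd_pos_of_pos_right _ (by omega)
  have hdle : Nat.gcd n (k + 1 - (l + 1)) ≤ k + 1 - (l + 1) := Nat.gcd_le_right _ (by omega)
  have hdn : Nat.gcd n (k + 1 - (l + 1)) ∣ n := Nat.gcd_dvd_left _ _
  unfold L at hm
  set r := res n (t + 2) (k + 1) (l + 1) with hr
  unfold res at hr
  set ch := chi n (t + 2) (k + 1) (l + 1) with hch
  unfold chi at hch
  set d : ℕ := Nat.gcd n (k + 1 - (l + 1)) with hdd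
  have hdZ : (0 : ℤ) < (d : ℤ) := by exact_mod_cast hdpos
  have hdleZ : (d : ℤ) ≤ (k : ℤ) - l := by
    have : (d : ℤ) ≤ ((k + 1 - (l + 1) : ℕ) : ℤ) := by exact_mod_cast hdle
    have h3 : ((k + 1 - (l + 1) : ℕ) : ℤ) = (k : ℤ) - l := by
      rw [Nat.cast_sub (by omega)]; push_cast; ring
    rwa [h3] at this
  have hr0 : 0 ≤ r := by rw [hr]; exact Int.emod_nonneg _ (ne_of_gt hdZ)
  have hrd : r < d := by rw [hr]; exact Int.emod_lt_of_pos _ hdZ
  push_cast at hch hm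
  have e1 : ((t : ℤ) + 2 - 2) = t := by ring
  rw [e1] at hch hm
  have hs : (0 : ℤ) < (k : ℤ) + 1 + ((l : ℤ) + 1) := by positivity
  have hmle : ((m : ℤ) + t) * ((k : ℤ) + 1 + ((l : ℤ) + 1)) ≤ n + 2 * t - r := by
    have := Int.ediv_mul_le ((n : ℤ) + 2 * t - r) (ne_of_gt hs)
    have h3 : (m : ℤ) + t = ((n : ℤ) + 2 * t - r) / ((k : ℤ) + 1 + ((l : ℤ) + 1)) := by
      rw [hm]; ring
    rwa [h3]
  have hchs : (ch + t) * ((k : ℤ) + 1 + ((l : ℤ) + 1)) ≤ n + 2 * t := by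
    have := Int.ediv_mul_le ((n : ℤ) + 2 * t) (ne_of_gt hs)
    have h3 : ch + t = ((n : ℤ) + 2 * t) / ((k : ℤ) + 1 + ((l : ℤ) + 1)) := by
      rw [hch]; ring
    rwa [h3]
  have hmch : (m : ℤ) ≤ ch := by
    rw [hch, le_sub_iff_add_le, Int.le_ediv_iff_mul_le hs]
    linarith
  set W : ℤ := (n : ℤ) - ((k : ℤ) + 1) * m - k * t with hWdef
  -- the key inequality
  have hkey : ((l : ℤ) + 1) * m + l * t ≤ W - W % d := by
    rcases lt_or_eq_of_le hmch with hlt | heq
    · have h3 : (m : ℤ) + 1 ≤ ch := hlt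
      have h4 := Int.emod_lt_of_pos W hdZ
      nlinarith
    · obtain ⟨f, hf⟩ := hdn
      have hW : r = W % d := by
        have h3 : (n : ℤ) = d * f := by
          have : n = d * f := hf
          exact_mod_cast this
        rw [hr, ← heq]
        push_cast
        have h4 : W =
            (-((k : ℤ) + 1) * m - ((k : ℤ) + 1 - 1) * ((t : ℤ) + 2 - 2)) + d * f := by
          rw [hWdef, h3]; ring
        rw [h4, Int.add_mul_emod_self_left]
      rw [← hW]
      nlinarith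
  have hmod := Int.emod_add_mul_ediv W d
  have hE0 : 0 ≤ (d : ℤ) * (W / d) := by
    have h3 : (0 : ℤ) ≤ ((l : ℤ) + 1) * m + l * t := by positivity
    linarith
  have hq0 : 0 ≤ W / d := nonneg_of_mul_nonneg_right hE0 hdZ
  have hmod0 : 0 ≤ W % d := Int.emod_nonneg _ (ne_of_gt hdZ)
  refine ⟨d * (W / d).toNat, Dvd.intro _ rfl, ?_, ?_⟩
  · zify
    rw [Int.toNat_of_nonneg hq0]
    linarith
  · zify
    rw [Int.toNat_of_nonneg hq0]
    have : (d : ℤ) * (W / d) + ((k : ℤ) + 1) * m + k * t = n - W % d := by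
      rw [hWdef] at hmod ⊢
      linarith
    linarith

theorem card_J_zmod (n : ℕ) [NeZero n] (x : ZMod n) (p : ℕ) (hp : p < n) :
    (J (1 : ZMod n) x p).card = p + 1 := by
  unfold J
  rw [Finset.card_image_of_injOn]
  · simp
  · intro i hi j hj hij
    simp only [Finset.coe_range, Set.mem_Iio] at hi hj
    simp only [nsmul_eq_mul, mul_one, add_right_inj] at hij
    rw [ZMod.natCast_eq_natCast_iff] at hij
    exact Nat.ModEq.eq_of_lt_of_lt hij (by omega) (by omega)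

/-- Main theorem: for all `n ≥ 1`, `k > l ≥ 1` and `c ≥ 2`, the maximum size of a
`C`-`(k,l)`-sum-free subset of `ℤ/nℤ`, where `C = {0, ..., c-1}`, is `max 0 L`. -/
theorem result (n k l c : ℕ) (hn : 1 ≤ n) (hl : 1 ≤ l) (hkl : l < k) (hc : 2 ≤ c) :
    IsGreatest {m : ℤ | ∃ A : Finset (ZMod n), IsNoisySumFree n c k l A ∧ (A.card : ℤ) = m}
      (max 0 (L n c k l)) := by
  have : NeZero n := ⟨by omega⟩
  constructor
  · -- the value is attained
    by_cases hL : 1 ≤ L n c k l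
    · rw [max_eq_right (by omega)]
      obtain ⟨m, hm⟩ := Int.eq_ofNat_of_zero_le (show 0 ≤ L n c k l by omega)
      have hm1 : 1 ≤ m := by
        have : (1 : ℤ) ≤ m := by rw [← hm]; exact hL
        exact_mod_cast this
      obtain ⟨E, hE1, hE2, hE3⟩ := exists_gap hc hl hkl hm.symm hm1
      -- solve `(k - l) x = E` modulo `n`
      obtain ⟨e, he⟩ := hE1
      have hbez := Nat.gcd_eq_gcd_ab n (k - l)
      set a := Nat.gcdA n (k - l)
      set b := Nat.gcdB n (k - l)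
      set x : ZMod n := ((b * e : ℤ) : ZMod n) with hx
      have hkx : (k - l) • x = (E : ZMod n) := by
        have h1 : (E : ℤ) = n * (a * e) + ((k - l : ℕ) : ℤ) * (b * e) := by
          have : (E : ℤ) = (Nat.gcd n (k - l) : ℤ) * e := by exact_mod_cast he
          rw [this, hbez]; ring
        have h2 : ((E : ℤ) : ZMod n) = ((n * (a * e) + ((k - l : ℕ) : ℤ) * (b * e) : ℤ) : ZMod n) := by
          rw [h1]
        rw [nsmul_eq_mul, hx]
        push_cast at h2 ⊢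
        rw [h2]
        simp
      refine ⟨J (1 : ZMod n) x (m - 1), ?_, ?_⟩
      · unfold IsNoisySumFree
        rw [noisySum_eq n c k (by omega), noisySum_eq n c l (by omega), X_J, X_J,
          ← Finset.disjoint_iff_inter_eq_empty, Finset.disjoint_left]
        intro z hz1 hz2
        obtain ⟨i, hi, hiz⟩ := mem_J.mp hz1
        obtain ⟨j, hj, hjz⟩ := mem_J.mp hz2
        rw [← hjz] at hiz
        have hkl' : k • x = l • x + (k - l) • x := by rw [← add_nsmul]; congr 1; omega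
        rw [hkl', hkx, add_assoc, add_right_inj] at hiz
        simp only [nsmul_eq_mul, mul_one] at hiz
        have h3 : ((E + i : ℕ) : ZMod n) = ((j : ℕ) : ZMod n) := by push_cast; exact hiz
        rw [ZMod.natCast_eq_natCast_iff] at h3
        have h4 : j < E := by
          obtain ⟨t, rfl⟩ : ∃ t, c = t + 2 := ⟨c - 2, by omega⟩
          obtain ⟨l, rfl⟩ : ∃ l', l = l' + 1 := ⟨l - 1, by omega⟩
          obtain ⟨m, rfl⟩ : ∃ m', m = m' + 1 := ⟨m - 1, by omega⟩
          have h5 : t + 2 - 1 = t + 1 := by omega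
          simp only [Nat.add_sub_cancel, h5] at hj hE2
          nlinarith
        have h6 : E + i < n := by
          obtain ⟨t, rfl⟩ : ∃ t, c = t + 2 := ⟨c - 2, by omega⟩
          obtain ⟨k, rfl⟩ : ∃ k', k = k' + 1 := ⟨k - 1, by omega⟩
          obtain ⟨m, rfl⟩ : ∃ m', m = m' + 1 := ⟨m - 1, by omega⟩
          have h5 : t + 2 - 1 = t + 1 := by omega
          simp only [Nat.add_sub_cancel, h5] at hi hE3
          nlinarith
        have h7 : E + i = j := Nat.ModEq.eq_of_lt_of_lt h3 h6 (by omega)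
        omega
      · have hmn : m - 1 < n := by
          have h5 : m ≤ k * m := Nat.le_mul_of_pos_left _ (by omega)
          have h6 : k * m ≤ n := by
            calc k * m ≤ E + k * m + (k - 1) * (c - 2) := by omega
              _ ≤ n := hE3
          omega
        rw [card_J_zmod n x (m - 1) hmn, hm]
        have : m - 1 + 1 = m := by omega
        rw [this]
    · rw [max_eq_left (by omega)]
      refine ⟨∅, ?_, by simp⟩
      unfold IsNoisySumFree noisySum
      obtain ⟨k, rfl⟩ : ∃ k', k = k' + 1 := ⟨k - 1, by omega⟩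
      simp [foldSum]
  · -- upper bound
    rintro m ⟨A, hA, rfl⟩
    by_cases hne : A.Nonempty
    · apply le_max_of_le_right
      have hg : ∀ x : ZMod n, ∃ i : ℕ, x = i • (1 : ZMod n) := fun x => ⟨x.val, by simp⟩
      unfold IsNoisySumFree at hA
      rw [noisySum_eq n c k (by omega), noisySum_eq n c l (by omega),
        ← Finset.disjoint_iff_inter_eq_empty] at hA
      obtain ⟨E, hE1, hE2, hE3⟩ := gap hg hc hl hkl hne hA
      rw [ZMod.card] at hE1 hE3
      exact le_L hc hl hkl hE1 hE2 hE3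
    · rw [Finset.not_nonempty_iff_eq_empty] at hne
      subst hne
      simp

end Pool.Agent.Results.MP_4e78b4_co.MuEqMaxL
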